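import Pool.Agent.helper88.BSLower

/-!
# An irrational isolated point of the zero locus of a Bernstein-Sato ideal

For `F = (x⁵ + y⁴ + x⁴y + t x³y², x)` on any subset `W ∋ 0` of `ℂ²` and any `t ∈ ℂ \ ℚ`, the point
`(-2t - 3/4, 10t - 5)` is an irreducible component of the zero locus `Z(B_F) ⊆ ℂ²`; it is not a
rational affine subspace.
-/

namespace Pool.Agent.Results.MP_63dd0b_ag.IrrationalPoint

open MvPolynomial Pool.Agent.BS

theorem sub_C_eval_mem {Q : Ideal (MvPolynomial (Fin 2) ℂ)} {x : Fin 2 → ℂ}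
    (h : ∀ i, (X i - C (x i) : MvPolynomial (Fin 2) ℂ) ∈ Q) (p : MvPolynomial (Fin 2) ℂ) :
    p - C (eval x p) ∈ Q := by
  induction p using MvPolynomial.induction_on with
  | C a => simp
  | add p q hp hq =>
    have := Q.add_mem hp hq
    rw [map_add, map_add]
    convert this using 1
    ring
  | mul_X p i hp =>
    have h1 := Q.mul_mem_right (X i) hp
    have h2 := Q.mul_mem_left (C (eval x p)) (h i)
    have := Q.add_mem h1 h2
    rw [map_mul, eval_X, map_mul]
    convert this using 1
    ring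

theorem isBernstein_of_chain {t : ℂ} {Q : Ideal (MvPolynomial (Fin 2) ℂ)} (hg : Good t Q)
    (W : Set (Fin 2 → ℂ)) : ∃ b ∈ bernsteinSatoIdeal (FF t) W, b ∉ Q := by
  obtain ⟨b, hb, G, hG, hGe⟩ := chain hg
  refine ⟨b, ?_, hb⟩
  intro p _
  refine ⟨Set.univ, isOpen_univ, trivial, G, hG, ?_⟩
  intro z _ hz s
  have := hGe z (hz 0) (hz 1) s
  simpa using this

theorem not_rational {x : Fin 2 → ℂ} {i : Fin 2} (hx : ∀ q : ℚ, x i ≠ q) :
    ¬ IsRationalAffineSubspace ({x} : Set (Fin 2 → ℂ)) := by
  rintro ⟨-, E, hE⟩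
  obtain ⟨φ, hφ⟩ := LinearMap.exists_leftInverse_of_injective
    (Algebra.linearMap ℚ ℂ) (LinearMap.ker_eq_bot.mpr (algebraMap ℚ ℂ).injective)
  have hφ1 : ∀ q : ℚ, φ (q : ℂ) = q := by
    intro q
    have := LinearMap.congr_fun hφ q
    simpa using this
  have hφ2 : ∀ (q : ℚ) (z : ℂ), φ ((q : ℂ) * z) = q * φ z := by
    intro q z
    have := φ.map_smul q z
    rwa [Rat.smul_def, smul_eq_mul] at this
  have hx0 : x ∈ ({x} : Set (Fin 2 → ℂ)) := rfl
  rw [hE] at hx0
  have hy : (fun j => ((φ (x j) : ℚ) : ℂ)) ∈ ({x} : Set (Fin 2 → ℂ)) := by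
    rw [hE]
    intro e he
    have h1 := hx0 e he
    have h2 := congrArg φ h1
    rw [Fin.sum_univ_two, map_add, map_add, hφ2, hφ2, hφ1, map_zero] at h2
    rw [Fin.sum_univ_two]
    change ((e.1 0 : ℚ) : ℂ) * ((φ (x 0) : ℚ) : ℂ) + ((e.1 1 : ℚ) : ℂ) * ((φ (x 1) : ℚ) : ℂ) +
      ((e.2 : ℚ) : ℂ) = 0
    exact_mod_cast h2
  rw [Set.mem_singleton_iff] at hy
  exact hx (φ (x i)) (congrFun hy i).symm

/-- **Result.** -/
theorem result (t : ℂ) (ht : ∀ q : ℚ, t ≠ q) (W : Set (Fin 2 → ℂ)) (h0 : (0 : Fin 2 → ℂ) ∈ W) :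
    ∃ P ∈ (bernsteinSatoIdeal
        ![fun z : Fin 2 → ℂ => z 0 ^ 5 + z 1 ^ 4 + z 0 ^ 4 * z 1 + t * z 0 ^ 3 * z 1 ^ 2,
          fun z : Fin 2 → ℂ => z 0] W).minimalPrimes,
      zeroLocus ℂ P = {![-2 * t - 3 / 4, 10 * t - 5]} ∧
      ¬ IsRationalAffineSubspace (zeroLocus ℂ P) := by
  change ∃ P ∈ (bernsteinSatoIdeal (FF t) W).minimalPrimes, _
  have hss : (![-2 * t - 3 / 4, 10 * t - 5] : Fin 2 → ℂ) = sstar t := rfl
  rw [hss]
  have hz : zeroLocus ℂ (vanishingIdeal ℂ {sstar t} : Ideal (MvPolynomial (Fin 2) ℂ)) =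
      {sstar t} := by
    ext x
    rw [mem_zeroLocus_iff, Set.mem_singleton_iff]
    constructor
    · intro h
      funext i
      have := h (X i - C (sstar t i)) (by
        rw [mem_vanishingIdeal_singleton_iff]; simp)
      simpa [sub_eq_zero] using this
    · rintro rfl p hp
      rwa [mem_vanishingIdeal_singleton_iff] at hp
  refine ⟨vanishingIdeal ℂ {sstar t}, ⟨⟨inferInstance, ?_⟩, ?_⟩, hz, ?_⟩
  · intro b hb
    rw [mem_vanishingIdeal_singleton_iff]
    exact eval_sstar ht h0 hb
  · rintro Q ⟨hQ, hBQ⟩ hQP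
    by_contra hPQ
    have hnot : ∀ p : MvPolynomial (Fin 2) ℂ, eval (sstar t) p ≠ 0 → p ∉ Q := by
      intro p hp hpQ
      have := hQP hpQ
      rw [mem_vanishingIdeal_singleton_iff] at this
      exact hp this
    have hgood : Good t Q := by
      refine ⟨hQ, ?_, ?_, ?_, ?_, ?_, ?_, ?_⟩
      · simpa using ht 0
      · intro h
        apply ht (1 / 4)
        push_cast
        linear_combination h / 4
      · apply hnot
        intro h
        apply ht (1 / 8)
        simp [sstar] at h
        push_cast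
        linear_combination (-1 / 2) * h
      · apply hnot
        intro h
        apply ht (2 / 5)
        simp [sstar] at h
        push_cast
        linear_combination (1 / 10) * h
      · intro l
        apply hnot
        intro h
        apply ht (-3 / 8 - l / 2)
        simp [sstar] at h
        push_cast
        linear_combination (-1 / 2) * h
      · intro w hw26
        apply hnot
        intro h
        apply hw26
        simp [sstar, Pool.Agent.BS.hw] at h
        have : (w : ℂ) = 26 := by linear_combination h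
        exact_mod_cast this
      · by_contra hcon
        rw [not_or, not_not, not_not] at hcon
        obtain ⟨c1, c2⟩ := hcon
        apply hPQ
        have e0 : (X 0 - C (sstar t 0) : MvPolynomial (Fin 2) ℂ) ∈ Q := by
          have h1 := Q.mul_mem_left (C (1 / 20)) c1
          have h2 := Q.mul_mem_left (C (-1 / 5)) c2
          convert Q.add_mem h1 h2 using 1
          simp only [Pool.Agent.BS.hw, sstar, Matrix.cons_val_zero]
          rw [mul_add, mul_add, mul_sub, ← mul_assoc, ← mul_assoc, ← C_mul, ← C_mul, ← C_mul,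
            ← C_mul]
          have : (C (-2 * t - 3 / 4) : MvPolynomial (Fin 2) ℂ) =
              - C (1 / 20 * (9 + 26)) + C (-1 / 5 * (10 * t - 5)) := by
            rw [← C_neg, ← C_add]; congr 1; ring
          rw [this]
          have h3 : (C (1 / 20 * 20) : MvPolynomial (Fin 2) ℂ) = 1 := by
            rw [← C_1]; congr 1; norm_num
          have h4 : (C (1 / 20 * 4) : MvPolynomial (Fin 2) ℂ) = - C (-1 / 5) := by
            rw [← C_neg]; congr 1; norm_num
          rw [h3, h4]
          ring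
        intro p hp
        rw [mem_vanishingIdeal_singleton_iff] at hp
        have h5 := sub_C_eval_mem (Q := Q) (x := sstar t) (fun i => by
          fin_cases i
          · exact e0
          · exact c2) p
        have h6 : eval (sstar t) p = 0 := hp
        rwa [h6, C_0, sub_zero] at h5
    obtain ⟨b, hb, hbQ⟩ := isBernstein_of_chain hgood W
    exact hbQ (hBQ hb)
  · rw [hz]
    apply not_rational (i := 1)
    intro q hq
    apply ht ((q + 5) / 10)
    have : (10 * t - 5 : ℂ) = q := hq
    push_cast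
    linear_combination this / 10

end Pool.Agent.Results.MP_63dd0b_ag.IrrationalPoint
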